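import Pool.Agent.MWG.Defs

/-!
# Block MWG: the lattice above M1 is distributive (rows)

MP_23468a_al, full answer.  Every row: file `Pool/Agent/HelperNN_MWG/XXX.lean`, import
`Pool.Agent.MWG.Stmts`, namespace `Pool.Agent.MWG.HNN`, theorem
`xxx (hypotheses = rows in uses, in this order) : XxxStmt`.  Rows of other squads used here:
`MWS.MasStmt`, `MWS.DbaStmt`, `MWS.BfrStmt`, `MWS.JpiStmt`, `MWS.TlmStmt`, `MVO.OneStmt`.
Tools: `RR.refl, symm, append, sub, filter`, `θ.trans`; `asm_congr, asm_split, asm_update,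
mem_asm, mem_pre, mem_suf, pre_split, suf_split, count_asm, rr_ins, rr_ins', rr_sub, uniq` (MVO/Basic,
MVO/Split), `rr_push`, `mem_pshB`, `pshB_succ` (MVO/Push); `β ≤ θ` is applied as `h _ _ hr`.
`¬ Bef l x y` (for `x ≠ y`) says that `[y, x]` is a sublist of `l`.
-/

namespace Pool.Agent.MWG

open Pool.Agent.Helper14_MV Pool.Agent.Helper2_MV Pool.Agent.MVO Pool.Agent.MWL Pool.Agent.MWS

/-! ### first tools -/

/-- **GMD** (uses nothing).  Powers.
PROOF.  (1) `x ∈ p`, `p = p1 ++ x :: p2`: `gm` with `0 ↦ [x]`, `1 ↦ p2`: `x p2 x ≈ x p2 x x`; so one `x`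
behind `p` can be doubled; by induction `p x^m q ≈ p x q` for `m ≥ 1` (double the first of the `m`
letters, backwards), the same for `m'`.  (2) `ap` with `0 ↦ [x]` and `RR.append`: `x^m ≈ x^(m+1)` for
`m ≥ 2`, induction. -/
def GmdStmt : Prop :=
  ∀ β : FIC, ClM β →
    (∀ (p q : List ℕ) (x m m' : ℕ), x ∈ p → 1 ≤ m → 1 ≤ m' →
      RR β (p ++ (List.replicate m x ++ q)) (p ++ (List.replicate m' x ++ q))) ∧
    (∀ (x m m' : ℕ), 2 ≤ m → 2 ≤ m' → RR β (List.replicate m x) (List.replicate m' x))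

/-- **BSM** (uses nothing).  PROOF.  `rr`: append `[0]` in front of `gm` with `1 ↦ [2]`
(`[0,2,0] ≈ [0,2,0,0]`).  `ic`: `cmw` with `p = []`, `q = c = [0,1]`: `[0,1,0,1] ≈ [1,0,0,1]`, and with the
letters exchanged `[1,0,1,0] ≈ [0,1,1,0]`.  `[1,0,0,1] ≈ [1,0,0,1,1]` (`gm` with `0 ↦ [1]`, `1 ↦ [0,0]`)
`≈ [1,1,1,0,0]` (`r0`, with a `1` in front: `0 0 1 1 ≈ 1 1 0 0`) `≈ [1,1,0,0]` (`ap`).  In the same way
`[0,1,1,0] ≈ [0,0,1,1]`, and `[0,0,1,1] ≈ [1,1,0,0]` by `r0`. -/
def BsmStmt : Prop := ∀ β : FIC, ClM β → BaseR β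

/-- **BFI** (uses nothing).  A letter between two of its occurrences does not matter for `Bef`.
PROOF.  `¬ Bef l c d` iff `[d, c] <+ l` (for `c ≠ d`; `[d, c] <+ l` iff `l = P ++ d :: Q` with `c ∈ Q`:
`List.cons_sublist_iff`, `List.singleton_sublist`).  `[d, c] <+ U ++ V` gives `[d, c] <+ U ++ y :: V`.
Conversely let `[d, c] <+ U ++ y :: V` (`List.sublist_append_iff`): if the `y` is used for `d` (`d = y`,
`c ∈ V`): `y ∈ U`, so `[y, c] <+ U ++ V`; if it is used for `c` (`c = y`, `d ∈ U`): `y ∈ V`, so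
`[d, y] <+ U ++ V`; otherwise it is not used. -/
def BfiStmt : Prop :=
  ∀ (U V : List ℕ) (y c d : ℕ), y ∈ U → y ∈ V → c ≠ d →
    (Bef (U ++ y :: V) c d ↔ Bef (U ++ V) c d)

/-- **MSB** (uses MWS.MAS, BSM).  The same shape and the same facts: equal in `β`.
PROOF.  MAS for `θ = β`: its hypothesis is empty because the facts `Bef (B i) x y`, `Bef (B' i) x y`
agree. -/
def MsbStmt : Prop :=
  ∀ β : FIC, ClM β → ∀ (k : ℕ) (B B' : ℕ → List ℕ), OkB k B → OkB k B' → Shp k B B' →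
    (∀ j ≤ k, ∀ c d, c ≠ d → (Bef (B j) c d ↔ Bef (B' j) c d)) → RR β (asm k B) (asm k B')

/-- **DBS** (uses MWS.BLR, GMD).  All letters which are not light can be doubled.
PROOF.  BLR: replace the blocks one after the other; in the block `m` double the letters one after
the other (induction on `B m = U ++ c :: V`, the part `U` already doubled).  Let `¬ Lf (ty B c) m`, the
word is `p ++ c :: q`.  If `c` occurs in a block `j < m` or in `U`, then `c ∈ p`: GMD (1) with `m = 1`,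
`m' = 2`.  Otherwise `(B m).count c ≠ 1` (else `c` would be light), so `c ∈ V`, `V = V1 ++ c :: V2`: `Itr`
with `w = []`, `w' = V1`: the letters of `V1` are multiple in the word (`OkB`, `count_asm`; doubling does
not decrease counts).  Counts: a light letter `c` in block `j` has count 1 in `B j` and is not doubled,
all others are doubled.  `OkB`: the letters are the same, counts do not decrease.  `Bef`: `[d, c] <+ l`
is the same for `l = B j` and for the list in which every letter is replaced by one or two copies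
(induction on `l`, or `P`, `Q` as in DBX of block MWS). -/
def DbsStmt : Prop :=
  ∀ β : FIC, ClM β → ∀ (k : ℕ) (B : ℕ → List ℕ), OkB k B →
    RR β (asm k B) (asm k (dbl2 B)) ∧ OkB k (dbl2 B) ∧
    (∀ j c, (dbl2 B j).count c = if Lf (ty B c) j then 1 else 2 * (B j).count c) ∧
    ∀ j c d, c ≠ d → (Bef (dbl2 B j) c d ↔ Bef (B j) c d)

/-- **FRS** (uses GMD).  Two letters which are not light commute.
PROOF.  `asm_split`, `asm_update`: the word is `p ++ A ++ x :: y :: D ++ q`, `p = pre C i`,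
`q = suf C i (k-i)`.  Let `D = D1 ++ y :: D2`.  `x ∈ A`: `x ≈ x x` (GMD).  `Itr` with `w = []`, `w' = D1`:
`y D1 y ≈ y y D1 y` (the letters of `D1` are multiple: `OkB`).  `r0` with `0 ↦ [x]`, `1 ↦ [y]`:
`x x y y ≈ y y x x`.  Backwards: `y y (x x D1) y ≈ y (x x D1) y` (`Itr`, `w' = x x D1`), `x x ≈ x` (GMD). -/
def FrsStmt : Prop :=
  ∀ β : FIC, ClM β → ∀ (k : ℕ) (C : ℕ → List ℕ), OkB k C → ∀ i ≤ k, ∀ (A D : List ℕ) (x y : ℕ),
    C i = A ++ x :: y :: D → x ≠ y → x ∈ A → y ∈ D →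
      RR β (asm k C) (asm k (Function.update C i (A ++ y :: x :: D)))

/-- **CTX** (uses MWS.DBA).  A two letter identity in a context.
PROOF.  `a = ty C x`, `b = ty C y`.  For `j ≤ k`, `j ≠ i` choose `P j`, `Q j`.  If `a j ≠ 0`: then
`j > i` (`a` is `0` before `i`), `b j = 0` (`Vis`), `hm a j = 2` (not light: `a i ≠ 0`, `i < j`), and `x` occurs at
least twice in `C j` (`Dbl`): `C j = P j ++ x :: Q j`, and by DBA it may be replaced by
`P j ++ x² ++ Q j`.  If `a j = 0`, `b j ≠ 0`: `C j = P j ++ y :: Q j`; if `Lf b j` then `hm b j = 1` and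
`C j = P j ++ y^1 ++ Q j`; if not, `hm b j = 2` and `y` occurs twice (`Dbl`): DBA gives
`P j ++ y² ++ Q j`.  If both are `0`: `P j = C j`, `Q j = []`.  So DBA (`Itr`, all blocks at once) relates
`Function.update C i L` with `fun j => if j = i then L else P j ++ (x^(hm a j) ++ y^(hm b j)) ++ Q j`
for `L = A ++ sb x y l ++ D` and `L = A ++ sb x y l' ++ D`.  `rr_ins` for the given pair with `P`, `Q`,
`P i = A`, `Q i = D`, `h c = if c = 0 then [x] else [y]` (`BlkOk`: the letters are `0`, `1`). -/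
def CtxStmt : Prop :=
  ∀ β θ : FIC, ClM β → β ≤ θ → ∀ (k : ℕ) (C : ℕ → List ℕ) (i : ℕ) (A D : List ℕ) (x y : ℕ)
    (l l' : List ℕ), x ≠ y → Vis k (ty C x) (ty C y) i → Dbl k C → (∀ c ∈ l, c = 0 ∨ c = 1) →
      (∀ c ∈ l', c = 0 ∨ c = 1) → OkB k (Function.update C i (A ++ sb x y l ++ D)) →
        OkB k (Function.update C i (A ++ sb x y l' ++ D)) →
          RR θ (asm k (cb (ty C x) (ty C y) i l)) (asm k (cb (ty C x) (ty C y) i l')) →
            RR θ (asm k (Function.update C i (A ++ sb x y l ++ D)))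
              (asm k (Function.update C i (A ++ sb x y l' ++ D)))

/-- **EXM** (uses BFI, MSB, FRS, CTX).  The exchange of neighbours.
PROOF.  `a = ty C x`, `b = ty C y`; `a i ≠ 0`, `b i ≠ 0`.
(1) `a j ≠ 0` and `b j ≠ 0` for some `i < j ≤ k`: `cmw` with `c = C j` (`asm_split`, `suf_split`; the
letters of `C j` are multiple in the word) in `β`.
(2) `¬ Lf a i`, `¬ Lf b i`: by `Dbl` both letters occur at least twice in `C i`; `x ∉ D`, so `x ∈ A`;
`y ∉ A`, so `y ∈ D`: FRS.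
(3) Otherwise, not (1), `Lf a i`: then `Vis k a b i`, and `XR θ k a b i` holds; `x ∉ A`.
(3a) `Lf b i`: `mR b i = ([0,1],[1,0])`: CTX with `l = [0,1]`, `l' = [1,0]`: `A ++ [x,y] ++ D` and
`A ++ [y,x] ++ D`, i.e. `C` (`Function.update_eq_self`) and the target.
(3b) `¬ Lf b i`: `y ∈ D` (`Dbl`).  CTX with `l = [1,1,0,1,1]`, `l' = [0,1,1]`:
`A y y x y y D ≈ A x y y D` in `θ`.  In `β` (MSB): `C i = A x y D` and `A x y y D` have the same shape and
the same facts (BFI with `U = A ++ [x, y]`, `V = D`), and `A y x D`, `A y y x y y D` too (BFI three times: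
`U = A ++ [y]`, `V = x :: D`; then behind the `x`: `U ∋ y`, `V = D`).  All these families are `OkB`.
(4) Not (1), (2), (3): `Lf b i`, `¬ Lf a i`: `Vis k b a i`, so `XL θ k b a i` with
`mL a i = ([1,1,0],[1,1,0,1,1])`; `x ∈ A` (`Dbl`).  CTX with the roles exchanged (`0 ↦ y`, `1 ↦ x`):
`A x x y D ≈ A x x y x x D` in `θ`; MSB and BFI: `A x y D ≈ A x x y D` (`U = A`, `V = x :: y :: D`) and
`A y x D ≈ A x x y x x D` (insert `x` between `A` and `y :: x :: D` twice, and once between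
`A ++ [x, x, y]` and `x :: D`). -/
def ExmStmt : Prop :=
  ∀ β θ : FIC, ClM β → β ≤ θ → ∀ (k : ℕ) (C : ℕ → List ℕ), OkB k C → Dbl k C → ∀ i ≤ k,
    ∀ (A D : List ℕ) (x y : ℕ), C i = A ++ x :: y :: D → x ≠ y → x ∉ D → y ∉ A →
      (Vis k (ty C x) (ty C y) i → XR θ k (ty C x) (ty C y) i) →
        (Vis k (ty C y) (ty C x) i → XL θ k (ty C y) (ty C x) i) →
          RR θ (asm k C) (asm k (Function.update C i (A ++ y :: x :: D)))

/-- **EQV** (uses nothing).  Everything only depends on the types up to `Eqt`.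
PROOF.  `hm a j = hm a' j` for `j ≤ k`; `Vis` clear; for `i ≤ k` `mL b i = mL b' i`, `mR b i = mR b' i`
(`Lf b i ↔ Lf b' i`), and `asm k (cb a b i l) = asm k (cb a' b' i l)` by `asm_congr`. -/
def EqvStmt : Prop :=
  ∀ (k : ℕ) (a a' b b' : ℕ → ℕ), Eqt k a a' → Eqt k b b' →
    (∀ i, Vis k a b i ↔ Vis k a' b' i) ∧
    (∀ (i : ℕ) (l : List ℕ), asm k (cb a b i l) = asm k (cb a' b' i l)) ∧
    ∀ i ≤ k, eL k a b i = eL k a' b' i ∧ eR k a b i = eR k a' b' i

/-- **NFT** (uses MWS.MAS, BSM, DBS, EXM, EQV).  Normal form theorem: the light / not light letters of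
the blocks and the visible facts determine the word.
PROOF.  `Bd = dbl2 B`, `Bd' = dbl2 B'`; by DBS it is enough to relate them.  `Shp k Bd Bd'`: for `NS k c`,
`j ≤ k`: by `Sms` both counts are `1` (light), or `0`, or both are `2 * (..) ≥ 2`.  MAS: let `C` be as in
its hypothesis (`OkB k C`, `Shp k Bd C`, `C i = A ++ x :: y :: D`, `x ∉ D`, `y ∉ A`, and
`Bef (Bd i) x y`, `Bef (Bd' i) x y` differ, so by DBS `Bef (B i) x y`, `Bef (B' i) x y` differ).
`Eqt k (ty B c) (ty C c)` for all `c`: the supports agree; `ty C c j = 1` iff `Lf (ty B c) j` for `j ≤ k`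
(`Shp`: the counts are equal or both at least `2`; the count in `Bd j` is `1` iff `c` is light), hence
`Lf (ty C c) j ↔ Lf (ty B c) j` (for letters which are not `NS` all entries are `0`).  `Dbl k C`: a letter of
`C j` which is not light has count `≥ 2` in `Bd j`, so in `C j`.  By EQV `Vis` and the edges for
`ty C` are those for `ty B`.  EXM: if `Vis k (ty C x) (ty C y) i`: the hypothesis for `x, y` (first part)
gives `XR`; if `Vis k (ty C y) (ty C x) i`: the hypothesis for the pair `y, x` (second part: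
`¬ (Bef (B i) x y ↔ Bef (B' i) x y)`) gives `XL θ k (ty B y) (ty B x) i`. -/
def NftStmt : Prop :=
  ∀ β θ : FIC, ClM β → β ≤ θ → ∀ (k : ℕ) (B B' : ℕ → List ℕ), OkB k B → OkB k B' → Sms k B B' →
    (∀ (x y i : ℕ), x ≠ y → Vis k (ty B x) (ty B y) i →
      (¬ (Bef (B i) x y ↔ Bef (B' i) x y) → XR θ k (ty B x) (ty B y) i) ∧
      (¬ (Bef (B i) y x ↔ Bef (B' i) y x) → XL θ k (ty B x) (ty B y) i)) →
        RR θ (asm k B) (asm k B')

/-- **CBT** (uses nothing).  The types of the families `cb`.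
PROOF.  `ty (cb a b i l) 0 j` is `hm a j` for `j ≠ i` and `1` for `j = i`; `ty (cb a b i l) 1 j` is `hm b j`
for `j ≠ i` and `l.count 1` for `j = i`.  `Eqt` for `0`: `hm a j = 0` iff `a j = 0`; light exactly in
block `i` on both sides (`Vis`: `Lf a i`; for `j > i` neither is light since block `i` is not empty;
for `j < i` `a j = 0`).  `Eqt` for `1`: `j < i`: `hm b j = 1` iff `Lf b j`, and `hm` is `0` where `b` is;
`j = i`: if `Lf b i`: `l.count 1 = 1` and nothing before; if not: `l.count 1 ≥ 2`, not light; `j > i`: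
neither is light (`b i ≠ 0`, `l.count 1 ≥ 1`).  `OkB`: the letters `0`, `1` are `NS k`; `0`: `deg k a ≥ 2`,
`a i = 1`, `a j = 0` for `j < i`, so `a j ≠ 0` for some `i < j ≤ k`, and `hm a j = 2` there, so the degree
is `≥ 3`; `1`: if `¬ Lf b i`, `l.count 1 ≥ 2`; if `Lf b i`, then `b i = 1` and `deg k b ≥ 2` gives
another nonempty block, where `hm b j ≥ 1`.  (`deg` is a sum over `Finset.range (k+1)`:
`Finset.single_le_sum`, `Finset.add_le_sum` or `Finset.sum_pos`.) -/
def CbtStmt : Prop :=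
  ∀ (k : ℕ) (a b : ℕ → ℕ) (i : ℕ) (l : List ℕ), Rl k a b i → Adm b i l →
    OkB k (cb a b i l) ∧ Two01 k (cb a b i l) ∧ Eqt k (ty (cb a b i l) 0) a ∧
      Eqt k (ty (cb a b i l) 1) b

/-- **RLB** (uses nothing).  PROOF.  `Vis` gives `ty B 0 i ≠ 0`, `ty B 1 i ≠ 0`, so `0, 1 ∈ B i` and `Mlt`
gives the degrees. -/
def RlbStmt : Prop :=
  ∀ (k : ℕ) (B : ℕ → List ℕ) (i : ℕ), OkB k B →
    (Vis k (ty B 0) (ty B 1) i → Rl k (ty B 0) (ty B 1) i) ∧
    (Vis k (ty B 1) (ty B 0) i → Rl k (ty B 1) (ty B 0) i)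

/-- **CBN** (uses EQV, NFT, CBT).  Normal form of a two letter word.
PROOF.  NFT with `θ = β` for `B` and `B1 := cb a b i l` (`OkB` by CBT).  `Sms k B B1`: for `c = 0, 1` by
CBT and the hypotheses; other letters do not occur in the blocks `0..k` (`Two01`).  Condition: let
`x ≠ y`, `Vis k (ty B x) (ty B y) j`; both letters occur, so `{x, y} = {0, 1}`.  `(0, 1)`: `j` is the first
block of `0`, so `j = i`.  `(1, 0)`: `j` is a common block without a later common block, and so is `i`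
(EQV: `Vis k (ty B 0) (ty B 1) i`), so `j = i`.  In block `i` the facts `Bef _ 0 1` and `Bef _ 1 0` of `B i`
and of `l` agree, so both implications are empty. -/
def CbnStmt : Prop :=
  ∀ β : FIC, ClM β → ∀ (k : ℕ) (B : ℕ → List ℕ) (a b : ℕ → ℕ) (i : ℕ) (l : List ℕ), OkB k B →
    Two01 k B → Eqt k (ty B 0) a → Eqt k (ty B 1) b → Rl k a b i → Adm b i l →
      (Bef (B i) 0 1 ↔ Bef l 0 1) → (Bef (B i) 1 0 ↔ Bef l 1 0) →
        RR β (asm k B) (asm k (cb a b i l))

/-- **TWD** (uses EQV, RLB, CBN).  A visible difference gives the edge.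
PROOF.  `a = ty B 0`, `b = ty B 1`; `Rl k a b i` (RLB); `Eqt k (ty B' 0) a`, `Eqt k (ty B' 1) b`.
(1) `Lf b i`.  In block `i` both letters have count 1 in `B i` and in `B' i` (`Sms`: light) and there are
no other letters: `B i, B' i ∈ {[0,1], [1,0]}`.  A differing fact means `B i ≠ B' i`.  CBN with
`l = B i` and for `B'` with `l' = B' i`: `RR θ (asm k (cb a b i (B i))) (asm k (cb a b i (B' i)))`, which is
`XR = XL` (or its symmetric form).
(2) `¬ Lf b i`.  `XR`: by symmetry (EQV for exchanging `B`, `B'`) let `Bef (B i) 0 1` and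
`¬ Bef (B' i) 0 1`.  `rr_ins'` with `Q i = [1,1]` (all other insertions empty): the families
`B1 = update B i (B i ++ [1,1])` and `B1'`.  `Bef (B i ++ [1,1]) 0 1` (no `0` behind a `1`), not
`Bef (B i ++ [1,1]) 1 0` (`0 ∈ B i`), and for `B' i ++ [1,1]` neither fact holds.  CBN for `B1` with
`l = [0,1,1]` and for `B1'` with `l = [1,1,0,1,1]`: the types: the letter `1` is not light in block `i`
before and after, everything else is unchanged (`Eqt`).  `XL`: let `Bef (B i) 1 0` and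
`¬ Bef (B' i) 1 0`; `rr_ins'` with `P i = [1,1]`: `[1,1] ++ B i`: `Bef 1 0` true, `Bef 0 1` false;
`[1,1] ++ B' i`: both false; CBN with `[1,1,0]` and `[1,1,0,1,1]`. -/
def TwdStmt : Prop :=
  ∀ β θ : FIC, ClM β → β ≤ θ → ∀ (k : ℕ) (B B' : ℕ → List ℕ), OkB k B → OkB k B' →
    Two01 k B → Two01 k B' → Sms k B B' → ∀ i, Vis k (ty B 0) (ty B 1) i →
      RR θ (asm k B) (asm k B') →
        (¬ (Bef (B i) 0 1 ↔ Bef (B' i) 0 1) → XR θ k (ty B 0) (ty B 1) i) ∧
        (¬ (Bef (B i) 1 0 ↔ Bef (B' i) 1 0) → XL θ k (ty B 0) (ty B 1) i)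

/-- **SMO** (uses nothing).  PROOF.  `Shp`: the counts of an `NS` letter in the block `j ≤ k` are equal or
both at least `2`; so the supports agree and `count = 1` in the same blocks, hence `Lf` agrees (the
blocks `j' < j` are `≤ k`).  Letters which are not `NS` do not occur (`OkB`). -/
def SmoStmt : Prop :=
  ∀ (k : ℕ) (B B' : ℕ → List ℕ), OkB k B → OkB k B' → Shp k B B' → Sms k B B'

/-- **SWM** (uses MWS.BFR, EQV, NFT, TWD, SMO).  PROOF.  Let `B`, `B'` have the same shape and `θ`-related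
restrictions.  `Sms k B B'` by SMO.  NFT: let `x ≠ y`, `Vis k (ty B x) (ty B y) i`.  `x, y ∈ B i`, so
`NS k x`, `NS k y`.  `f c = if c = x then 0 else 1`, `C j := (r2 x y B j).map f`, `C'` the same for `B'`:
`RR θ (asm k C) (asm k C')` (`rr_sub` with `c ↦ [f c]`), `OkB`, `Two01`; `ty C 0 = ty B x`,
`ty C 1 = ty B y` (also for `B'`), so `Sms k C C'` and `Vis k (ty C 0) (ty C 1) i`.  `Bef (C i) 0 1 ↔
Bef (B i) x y`, `Bef (C i) 1 0 ↔ Bef (B i) y x` by BFR (filter, then map), the same for `C'`.  TWD. -/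
def SwmStmt : Prop := ∀ β : FIC, ClM β → SWP β

/-! ### one letter facts and the bits E, T, F -/

/-- **RGA** (uses GMD).  Without `E` and `T` the blocks of the first, the second and the last
occurrence are fixed.
PROOF.  Fix `i ≤ k`, `f j = if j ≤ i then 0 else 1` (`BMap k 1 f`); `(FC.ofFIC θ).push 1 f`:
`L1 θ 1 (psh k f a) (psh k f a')`, that is `x^m t x^q ≈ x^m' t x^q'` with `m = deg i a`, `m' = deg i a'`,
`q`, `q'` the sums over `i < j ≤ k` (`x = 0`, `t = 2`).  First claim: suppose `min m 2 ≠ min m' 2`, by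
symmetry `m < m'`, `m ≤ 1`.  Append `[0]`: `x^m t x^(q+1) ≈ x^m' t x^(q'+1)`.  `m = 1`, `m' ≥ 2`: the left side
is `≈ x t x` (GMD), the right side `≈ x² t x` (GMD): `TT θ`.  `m = 0`: put `[0]` in front:
`x t x ≈ x^(m'+1) t x ≈ x² t x`: `TT θ`.  Second claim: suppose `q = 0`, `q' ≠ 0` (or the converse): put
`[0,0]` in front: `x^(m+2) t ≈ x^(m'+2) t x^q'`, i.e. `x² t ≈ x² t x` (GMD): `EE θ`.  (`q = 0` iff all
`a j = 0` for `i < j ≤ k`.) -/
def RgaStmt : Prop :=
  ∀ β θ : FIC, ClM β → β ≤ θ → ¬ EE θ → ¬ TT θ → ∀ (k : ℕ) (a a' : ℕ → ℕ), L1 θ k a a' → Dt k a a'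

/-- **RGB** (uses GMD).  Without `F` the empty blocks are fixed.
PROOF.  Suppose `i ≤ k`, `a i = 0`, `a' i ≠ 0` (or the converse).  `f j = if j < i then 0 else if j = i then 1
else 2` (`BMap k 2 f`), push: `x^p t x^0 s x^q ≈ x^p' t x^r s x^q'`, `r = a' i ≥ 1` (`t = 2`, `s = 3`).  Put
`[0,0]` in front and behind; GMD: `x² t s x² ≈ x² t x² s x²`, that is `FF θ`. -/
def RgbStmt : Prop :=
  ∀ β θ : FIC, ClM β → β ≤ θ → ¬ FF θ → ∀ (k : ℕ) (a a' : ℕ → ℕ), L1 θ k a a' → Sp k a a'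

/-- **CLS** (uses MVO.ONE, RGA, RGB).  Without `E`, `T`, `F` related words have the same light / not
light letters in every block.
PROOF.  Let `NS k c`.  ONE: `L1 θ k (ty B c) (ty B' c)`; RGA, RGB.  `Dt` and `Sp` give `Eqt`: if
`Lf a j` (`j ≤ k`), then `deg j a = 1`, so `deg j a' = 1` (`min` with `2`), `a' j ≠ 0` and `a' j' = 0` for
`j' < j` by `Sp`, so `a' j = 1`: `Lf a' j`; and conversely.  If not `NS k c`: `c` is in no block `≤ k`. -/
def ClsStmt : Prop :=
  ∀ β θ : FIC, ClM β → β ≤ θ → ¬ EE θ → ¬ TT θ → ¬ FF θ → ∀ (k : ℕ) (B B' : ℕ → List ℕ), OkB k B →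
    OkB k B' → RR θ (asm k B) (asm k B') → Sms k B B'

/-- **EET** (uses GMD).  With `E` or `T` all multiple letters commute.
PROOF.  `x = y` trivial.  (E) If `x` occurs twice in `w = u x v x z`, then `w ≈ w x`:
`u x v x z ≈ u x v x x z` (GMD) `≈ u x v x x z x` (`EE`, `2 ↦ z`) `≈ u x v x z x`.  So
`p x y q ≈ p x y q x y` in `θ`, `≈ p y x q x y` in `β` (`cmw` with `c = [x, y]`, the last two letters;
counts), `≈ p y x q`.  (T) Every multiple letter `x` in `p ++ x :: q` can be doubled: `x ∈ p`: GMD;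
otherwise `q = q1 x q2`: `TT` with `0 ↦ [x]`, `2 ↦ q1`.  So `p x y q ≈ p x x y y q ≈ p y y x x q` (`r0`)
`≈ p y x q` (each time one letter is doubled or reduced; its count in the word is at least 2). -/
def EetStmt : Prop :=
  ∀ β θ : FIC, ClM β → β ≤ θ → (EE θ ∨ TT θ) → ∀ (p q : List ℕ) (x y : ℕ),
    2 ≤ (p ++ x :: y :: q).count x → 2 ≤ (p ++ x :: y :: q).count y →
      RR θ (p ++ x :: y :: q) (p ++ y :: x :: q)

/-- **FIL** (uses GMD).  `F` inserts a square behind the second and before the last occurrence.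
PROOF.  `p = p1 x p2 x p3`, `q = q1 x q2`.  GMD: the second `x` of `p` and the `x` of `q` can be squared.
`FF` with `0 ↦ [x]`, `2 ↦ p3`, `3 ↦ q1`: `x² p3 q1 x² ≈ x² p3 x² q1 x²`.  GMD backwards. -/
def FilStmt : Prop :=
  ∀ β θ : FIC, ClM β → β ≤ θ → FF θ → ∀ (p q : List ℕ) (x : ℕ), 2 ≤ p.count x → x ∈ q →
    RR θ (p ++ q) (p ++ (x :: x :: q))

/-- **EBX** (uses CBT, CBN, EET).  `E` or `T` gives all edges.
PROOF.  `Lf b i`: the two words of `eL = eR` are `p ++ [0,1] ++ q`, `p ++ [1,0] ++ q` (`asm_split`,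
`pre_congr`, `suf_congr`): EET (counts `≥ 2`: CBT).  `¬ Lf b i`: EET gives `[1,1,0] → [1,0,1]` in
block `i` (exchange the second `1` with the `0`) and `[0,1,1] → [1,0,1]`; CBN for the family
`cb a b i [1,0,1]` (admissible; CBT) and `l = [1,1,0,1,1]` (both facts are false in both lists):
`asm k (cb a b i [1,0,1]) ≈ asm k (cb a b i [1,1,0,1,1])` in `β`. -/
def EbxStmt : Prop :=
  ∀ β θ : FIC, ClM β → β ≤ θ → (EE θ ∨ TT θ) → ∀ (k : ℕ) (a b : ℕ → ℕ) (i : ℕ), Rl k a b i →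
    XL θ k a b i ∧ XR θ k a b i

/-- **FXL** (uses FIL).  `F` gives the left edge if `y` occurs behind block `i`.
PROOF.  The words are `p ++ [1,1,0] ++ q` and `p ++ [1,1,0,1,1] ++ q`, `q = suf .. i (k-i)` contains `1`
(`hm b j = 2`, `mem_suf`).  FIL with `p ++ [1,1,0]` and `q`. -/
def FxlStmt : Prop :=
  ∀ β θ : FIC, ClM β → β ≤ θ → FF θ → ∀ (k : ℕ) (a b : ℕ → ℕ) (i : ℕ), Rl k a b i → ¬ Lf b i →
    (∃ j, i < j ∧ j ≤ k ∧ b j ≠ 0) → XL θ k a b i

/-- **FXR** (uses FIL, NFT, CBT).  `F` gives the right edge if `y` occurs twice before block `i`, or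
if `x` and then `y` occur behind block `i`.
PROOF.  The words are `p ++ [1,1,0,1,1] ++ q` and `p ++ [0,1,1] ++ q`.
(1) `2 ≤ ∑ j < i, b j`: then `2 ≤ p.count 1`, `p = pre .. i`: the block of the first occurrence has
`hm ≥ 1`, and if it has `hm = 1` (light), there is another nonempty block before `i`, with `hm = 2`.
FIL with `p` and `[0,1,1] ++ q`: the second word `≈ p ++ [1,1] ++ [0,1,1] ++ q`, the first word.
(2) `i < j1 < j2 ≤ k`, `a j1 ≠ 0`, `b j2 ≠ 0`: `b j1 = 0` (`Vis`), so block `j1` is `[0,0]`.  For both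
words FIL (the `1` occurs twice in block `i` and again in block `j2`) inserts `[1,1]` behind this
`[0,0]`.  The new families (block `j1` is `[0,0,1,1]`) are related in `β` by NFT: they are `OkB`, `Sms`
(they differ only in block `i`, where `0` is light and `1` is not), and the condition is empty:
`Vis` for `(0, 1)` in block `j` would need `j = i` (first block of `0`), but block `j1 > i` is common;
`(1, 0)`: `j > i` is impossible (`1` is in block `i`, so it is not light behind it), and `j ≤ i` has the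
later common block `j1`. -/
def FxrStmt : Prop :=
  ∀ β θ : FIC, ClM β → β ≤ θ → FF θ → ∀ (k : ℕ) (a b : ℕ → ℕ) (i : ℕ), Rl k a b i → ¬ Lf b i →
    ((2 ≤ ∑ j ∈ Finset.range i, b j) ∨
      ∃ j1 j2, i < j1 ∧ j1 < j2 ∧ j2 ≤ k ∧ a j1 ≠ 0 ∧ b j2 ≠ 0) → XR θ k a b i

/-- **FXK** (uses FIL, NFT, CBT).  `F` gives the exchange of two light letters if they alternate
three times behind block `i`.
PROOF.  Case `a j1, b j2, a j3 ≠ 0`, `i < j1 < j2 < j3 ≤ k`: block `j2` is `[1,1]` (`a j2 = 0` by `Vis`,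
`hm b j2 = 2`).  FIL with the letter `0` (it occurs in block `i`, twice in block `j1`, and again in block
`j3`) inserts `[0,0]` in front of this `[1,1]`, in both words of the edge; the two new families (block
`j2` is `[0,0,1,1]`) are related in `β` by NFT as in FXR (2): the condition is empty because of the
common block `j2`.  Case `b j1, a j2, b j3 ≠ 0`: block `j2` is `[0,0]`; insert `[1,1]` in front of it
(FIL with the letter `1`). -/
def FxkStmt : Prop :=
  ∀ β θ : FIC, ClM β → β ≤ θ → FF θ → ∀ (k : ℕ) (a b : ℕ → ℕ) (i : ℕ), Rl k a b i → Lf b i →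
    (∃ j1 j2 j3, i < j1 ∧ j1 < j2 ∧ j2 < j3 ∧ j3 ≤ k ∧
      ((a j1 ≠ 0 ∧ b j2 ≠ 0 ∧ a j3 ≠ 0) ∨ (b j1 ≠ 0 ∧ a j2 ≠ 0 ∧ b j3 ≠ 0))) → XL θ k a b i

/-! ### join primality of the edges -/

/-- **JGL** (uses MWS.JPI, BSM, EQV, CBT, TWD, CLS, EBX).  If `F` gives the left edge, the left edge
is join prime.
PROOF.  `(l0, l1) = mL b i` (both `Adm b i`), `B0 = cb a b i l0`, `B1 = cb a b i l1`; the facts
`Bef l0 1 0`, `Bef l1 1 0` are different (`[1,1,0]`: true, `[1,1,0,1,1]`: false; `[0,1]`: false, `[1,0]`: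
true).  JPI with `A B := Sms k B B0 ∧ (Bef (B i) 1 0 ↔ Bef l0 1 0)`.  `A B0`; `¬ A B1`; `ext`: `Sms` and
the fact only depend on the blocks `≤ k` (`i ≤ k`).  Closure: let `θ` not contain the edge; `¬ EE θ`,
`¬ TT θ` by EBX, `¬ FF θ` by hypothesis.  CLS: `Sms k B B'`, so `Sms k B' B0` (`Eqt` is an equivalence
relation).  If the facts `Bef (B i) 1 0`, `Bef (B' i) 1 0` were different: `Vis k (ty B 0) (ty B 1) i` (EQV,
CBT), TWD gives `XL θ k (ty B 0) (ty B 1) i`, which is `XL θ k a b i` (EQV), a contradiction. -/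
def JglStmt : Prop :=
  ∀ β : FIC, ClM β → ∀ (k : ℕ) (a b : ℕ → ℕ) (i : ℕ), Rl k a b i →
    (∀ θ : FIC, β ≤ θ → FF θ → XL θ k a b i) → JPp β (eL k a b i)

/-- **JGR** (uses MWS.JPI, BSM, EQV, CBT, TWD, CLS, EBX).  The same for the right edge.
PROOF.  As JGL with `mR b i`, the fact `Bef _ 0 1` (`[1,1,0,1,1]`: false, `[0,1,1]`: true; `[0,1]`: true,
`[1,0]`: false) and `XR`. -/
def JgrStmt : Prop :=
  ∀ β : FIC, ClM β → ∀ (k : ℕ) (a b : ℕ → ℕ) (i : ℕ), Rl k a b i →
    (∀ θ : FIC, β ≤ θ → FF θ → XR θ k a b i) → JPp β (eR k a b i)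

/-- **ALZ** (uses MVO.ONE, MWS.JPI, BSM, GMD, CBT, RGA, EBX).  The left edge is join prime if `y` is
not light in block `i` and does not occur behind it.
PROOF.  `B0 = cb a b i [1,1,0]`, `B1 = cb a b i [1,1,0,1,1]` (CBT).  JPI with
`A B := Dt k (ty B 0) (ty B0 0) ∧ Dt k (ty B 1) (ty B0 1) ∧ Bef (B i) 1 0`.  `¬ A B1` (the last condition).
Closure: `θ` does not contain the edge, so `¬ EE θ`, `¬ TT θ` (EBX).  Let `RR θ (asm k B) (asm k B')`,
`A B`.  ONE and RGA: `Dt k (ty B c) (ty B' c)` for `c = 0, 1`, so `Dt` holds for `B'` (`Dt` is an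
equivalence relation).  For `B` and `B'` this means: no `0` before block `i`, exactly one `0` in block
`i` (`deg` up to `i - 1` is `0`, up to `i` is `1`), some `0` behind block `i` (`OkB`: multiple), no `1`
behind block `i`.  Suppose `¬ Bef (B' i) 1 0`.  `rr_push` with `f j = if j ≤ i then 0 else 1` (`k' = 1`):
block 0 is the concatenation of the blocks `0..i`: for `B` it is a list of `1`s followed by the `0` (no
`1` behind the `0` in `B i`), `1^m 0`; for `B'` it is `1^m' 0 1^n` with `n ≥ 1`; block 1 is `0^r`, `0^r'`,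
`r, r' ≥ 1` (`mem_pshB`; a list with one kind of letter is `replicate`).  Put `[1,1]` in front, GMD:
`(*) RR θ [1,1,0,2,0] [1,1,0,1,1,2,0]`.  The edge: `asm k B0 = p ++ [1,1,0] ++ q`,
`asm k B1 = p ++ [1,1,0,1,1] ++ q`, `0 ∈ q`, `q = q1 ++ 0 :: q2`: `(*)` with `2 ↦ q1` and `RR.append` gives
the edge in `θ`: contradiction. -/
def AlzStmt : Prop :=
  ∀ β : FIC, ClM β → ∀ (k : ℕ) (a b : ℕ → ℕ) (i : ℕ), Rl k a b i → ¬ Lf b i →
    (∀ j, i < j → j ≤ k → b j = 0) → JPp β (eL k a b i)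

/-- **GMZ** (uses MVO.ONE, MWS.JPI, BSM, GMD, CBT, RGA, EBX).  The right edge is join prime if `y` is
not light in block `i`, occurs at most once before it, and does not occur behind the next `x`.
PROOF.  `JPp` is symmetric in the two words (`RR.symm`).  `B0 = cb a b i [0,1,1]`,
`B1 = cb a b i [1,1,0,1,1]`.  Let `s = ∑ j < i, b j ≤ 1`; then `s` is also the number of `1`s of `B0` before
block `i` (if `s = 1` the block is light, `hm = 1`).  Let `j1 > i` be the first block behind `i` with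
`a j1 ≠ 0` (it exists: `deg k a ≥ 2`, `Lf a i`); all blocks `j ≤ k` with `b j ≠ 0` are `< j1`.
JPI with `A B := Dt k (ty B 0) (ty B0 0) ∧ Dt k (ty B 1) (ty B0 1) ∧ Bef (B i) 0 1`; `¬ A B1`.
Closure: `¬ EE θ`, `¬ TT θ` (EBX); `Dt` for `B'` as in ALZ.  For `B` and `B'` this means: the first block
of `0` is `i`, there is exactly one `0` in it, the next block with a `0` is `j1`; exactly `s` letters `1`
before block `i` (`deg`, `min` with 2, `s ≤ 1`), no `1` in the blocks `≥ j1`.  Suppose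
`¬ Bef (B' i) 0 1`.  `rr_push` with `f j = if j < i then 0 else if j < j1 then 1 else 2`, `k' = 2`: block 0:
`1^s`; block 1: for `B`: `B i` is `0 1^n` (no `0` behind a `1`) followed by `1`s: `0 1^n`; for `B'`: `B' i` has
a `1` in front of its `0`: `1^u 0 1^v`, `u ≥ 1`; block 2: `0^r`, `0^r'`, `r, r' ≥ 1`.  `rr_ins'` with
`Q 1 = [1,1]`; GMD: `1^(n+2) ≈ 1²`, `1^(v+2) ≈ 1²`, `0^r ≈ 0`; `1^u ≈ 1²` if `u ≥ 2`; if `u = 1`: `Itr` with
`w = []`, `w' = [0]`: `1 0 1 ≈ 1 1 0 1`.  So `(*) RR θ (1^s ++ [2,0,1,1,3,0]) (1^s ++ [2,1,1,0,1,1,3,0])`.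
The edge: `asm k B0 = p ++ [0,1,1] ++ q`, `q = q1 ++ 0 :: q2`; `3 ↦ q1`; if `s = 0`: `2 ↦ []`; if `s = 1`:
`1 ∈ p`, `p = p1 ++ 1 :: p2`, `2 ↦ p2`.  So the edge is in `θ`: contradiction. -/
def GmzStmt : Prop :=
  ∀ β : FIC, ClM β → ∀ (k : ℕ) (a b : ℕ → ℕ) (i : ℕ), Rl k a b i → ¬ Lf b i →
    (∑ j ∈ Finset.range i, b j) ≤ 1 →
      (∀ j1 j2, i < j1 → j1 ≤ k → j2 ≤ k → a j1 ≠ 0 → b j2 ≠ 0 → j2 < j1) → JPp β (eR k a b i)

/-- **KPZ** (uses MVO.ONE, MWS.JPI, BSM, GMD, CBT, RGA, EBX).  The exchange of two light letters is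
join prime if behind block `i` all `x` are before all `y` or conversely.
PROOF.  `B0 = cb a b i [0,1]`, `B1 = cb a b i [1,0]`.  JPI with
`A B := Dt k (ty B 0) (ty B0 0) ∧ Dt k (ty B 1) (ty B0 1) ∧ Bef (B i) 0 1`; `¬ A B1`.  Closure as in ALZ:
`¬ EE θ`, `¬ TT θ`, `Dt` for `B'`.  Case 1: all `x` before all `y`.  Let `j2` be the first block behind
`i` with `b j2 ≠ 0`; all blocks `j > i` with `a j ≠ 0` are `< j2`.  By `Dt`, for `B` and `B'`: both letters
occur exactly once in block `i` and not before it; the next `1` is in block `j2`; all `0` are in blocks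
`< j2` (last block), and there is one behind `i`.  `B i = [0,1]` (no `0` behind the `1`).  Suppose
`¬ Bef (B' i) 0 1`: `B' i = [1,0]`.  `rr_push` with `f j = if j ≤ i then 0 else if j < j2 then 1 else 2`,
`k' = 2`: `[0,1] | 0^r | 1^u` and `[1,0] | 0^r' | 1^u'` with `r, r', u, u' ≥ 1`.  GMD:
`(*) RR θ [0,1,2,0,3,1] [1,0,2,0,3,1]`.  The edge: `asm k B0 = p ++ [0,1] ++ q`,
`q = q1 ++ 0 :: q2 ++ 1 :: q3`; `(*)` with `2 ↦ q1`, `3 ↦ q2`: contradiction.  Case 2: the same with `0`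
and `1` exchanged behind block `i`: `(*) RR θ [0,1,2,1,3,0] [1,0,2,1,3,0]`. -/
def KpzStmt : Prop :=
  ∀ β : FIC, ClM β → ∀ (k : ℕ) (a b : ℕ → ℕ) (i : ℕ), Rl k a b i → Lf b i →
    ((∀ j1 j2, i < j1 → i < j2 → j1 ≤ k → j2 ≤ k → a j1 ≠ 0 → b j2 ≠ 0 → j1 < j2) ∨
      (∀ j1 j2, i < j1 → i < j2 → j1 ≤ k → j2 ≤ k → a j1 ≠ 0 → b j2 ≠ 0 → j2 < j1)) →
        JPp β (eL k a b i)

/-- **JPM** (uses FXL, FXR, FXK, JGL, JGR, ALZ, GMZ, KPZ).  All edges are join prime.
PROOF.  `Lf b i`: `eL = eR`.  If there is an alternating triple as in FXK: FXK and JGL.  Otherwise KPZ: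
the sets `X = {j : i < j ≤ k, a j ≠ 0}`, `Y` (for `b`) are disjoint (`Vis`); if neither alternative of KPZ
holds there are `x1, y1` with `y1 < x1` and `x2, y2` with `x2 < y2` (`x` in `X`, `y` in `Y`); if `y2 < x1`:
`x2 < y2 < x1`; if `x1 < y2`: `y1 < x1 < y2`; an alternating triple.  `¬ Lf b i`, `eL`: if `b j ≠ 0` for
some `i < j ≤ k`: FXL and JGL, otherwise ALZ.  `eR`: if the condition of FXR holds: FXR and JGR;
otherwise GMZ: for `i < j1 ≤ k`, `j2 ≤ k` with `a j1 ≠ 0`, `b j2 ≠ 0`: `j2 ≤ i` or (`j2 ≠ j1` by `Vis`, and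
`j1 < j2` would be the condition of FXR) `j2 < j1`. -/
def JpmStmt : Prop :=
  ∀ β : FIC, ClM β → ∀ (k : ℕ) (a b : ℕ → ℕ) (i : ℕ), Rl k a b i →
    JPp β (eL k a b i) ∧ JPp β (eR k a b i)

/-! ### the theorem -/

/-- **SYM** (uses nothing).  Two light letters: exchanging the names.
PROOF.  `RR.sub` with `0 ↦ [1]`, `1 ↦ [0]`, `c ↦ [c]` else (`rr_sub`).  In a block `j ≠ i`, `j ≤ k` at most one
of `hm a j`, `hm b j` is not `0`: for `j < i` both are `0` (`Lf a i`, `Lf b i`), for `j > i` by `Vis`.  So the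
image of `cb a b i [0,1]` is `cb b a i [1,0]` on `0..k`, and that of `cb a b i [1,0]` is
`cb b a i [0,1]`. -/
def SymStmt : Prop :=
  ∀ (θ : FIC) (k : ℕ) (a b : ℕ → ℕ) (i : ℕ), Vis k a b i → Lf b i → XL θ k a b i →
    XL θ k b a i ∧ XR θ k b a i

/-- **EDA** (uses NFT, TWD, RLB, SMO, JPM, SYM).  Edges, if `0` is light in the last common block.
PROOF.  `a = ty B 0`, `b = ty B 1`, `Sms k B B'` (SMO), `Rl k a b i` (RLB).
`L := (if the facts Bef _ 0 1 of B i, B' i differ then [eR k a b i] else []) ++ (if the facts Bef _ 1 0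
differ then [eL k a b i] else [])` (classical case distinction).  Join prime: JPM.  (→) TWD.
(←) NFT: let `x ≠ y`, `Vis k (ty B x) (ty B y) j`: `{x, y} = {0, 1}` (`Two01`).  `(0, 1)`: `j = i` (first
block of `0`), the edges are in `θ` by hypothesis.  `(1, 0)`: `j = i` (both are the last common block),
`Lf b i`, both letters are light, `eL k a b i = eR k a b i`; if one of the facts differs, the edge is in
`θ` and SYM gives `XR θ k b a i`, `XL θ k b a i`. -/
def EdaStmt : Prop :=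
  ∀ β : FIC, ClM β → ∀ (k : ℕ) (B B' : ℕ → List ℕ), OkB k B → OkB k B' → Two01 k B →
    Two01 k B' → Shp k B B' → ∀ i, Vis k (ty B 0) (ty B 1) i →
      ∃ L : List (List ℕ × List ℕ), (∀ e ∈ L, JPp β e) ∧
        ∀ θ : FIC, β ≤ θ → NC2 θ → (RR θ (asm k B) (asm k B') ↔ ∀ e ∈ L, RR θ e.1 e.2)

/-- **EDM** (uses NFT, SMO, EDA).  PROOF.  If `Vis k (ty B 0) (ty B 1) i` for some `i`: EDA.  If
`Vis k (ty B 1) (ty B 0) i` for some `i`: let `g 0 = 1`, `g 1 = 0`, `g c = c`, `C j = (B j).map g`, `C'` the same;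
`RR θ (asm k B) (asm k B') ↔ RR θ (asm k C) (asm k C')` (`rr_sub` twice, `BlkOk`), `OkB`, `Two01`, `Shp`,
`ty C 0 = ty B 1`, `ty C 1 = ty B 0`: EDA for `C`, `C'`.  Otherwise `L = []`: `RR β (asm k B) (asm k B')` by
NFT with `θ = β`: the condition is empty (a visible pair would be `(0, 1)` or `(1, 0)`). -/
def EdmStmt : Prop := ∀ β : FIC, ClM β → EdgeP β

/-- **M1D** (uses MWS.TLM, BSM, SWM, EDM).  **The lattice above M1 is distributive.** -/
def M1dStmt : Prop := ∀ β : FIC, ClM β → DistF β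

end Pool.Agent.MWG
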