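import Pool.Agent.MWS.StmtsA
import Pool.Agent.MWS.StmtsB

/-!
# The system M1 in the gamma world (definitions)

Block MWG of the full answer to MP_23468a_al.  `M1`: `xyx ≈ xyx²`, `x²y² ≈ y²x²`, `Itr`, and two
letters commute if both lie in one later block of the word.  The lattice of the fully invariant
congruences above `M1` is distributive (two letter principle of block MWS).

A letter is LIGHT (`Lf`) in a block if this is its first block and it occurs there exactly once.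
Two letter words have the letters `0` (`x`) and `1` (`y`); the separators are `2, 3, …`.
-/

namespace Pool.Agent.MWG

open Pool.Agent.Helper14_MV Pool.Agent.Helper2_MV Pool.Agent.MVO Pool.Agent.MWL Pool.Agent.MWS

/-- the base M1 -/
structure ClM (β : FIC) : Prop where
  ap : RR β [0, 0] [0, 0, 0]
  gm : RR β [0, 1, 0] [0, 1, 0, 0]
  r0 : RR β [0, 0, 1, 1] [1, 1, 0, 0]
  itr : Itr β
  cmw : ∀ (p q : List ℕ) (x y : ℕ) (c : List ℕ), (∃ r s, q = r ++ c ++ s) → x ∈ c → y ∈ c →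
    (∀ z ∈ c, 2 ≤ (p ++ x :: y :: q).count z) → RR β (p ++ x :: y :: q) (p ++ y :: x :: q)

/-- light: the first block of the letter is `j` and it occurs once in this block -/
def Lf (a : ℕ → ℕ) (j : ℕ) : Prop := a j = 1 ∧ ∀ j' < j, a j' = 0

instance (a : ℕ → ℕ) (j : ℕ) : Decidable (Lf a j) := by
  unfold Lf
  infer_instance

/-- the same empty blocks and the same light blocks -/
def Eqt (k : ℕ) (a a' : ℕ → ℕ) : Prop :=
  ∀ j ≤ k, (a j = 0 ↔ a' j = 0) ∧ (Lf a j ↔ Lf a' j)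

/-- the same for all letters of the blocks -/
def Sms (k : ℕ) (B B' : ℕ → List ℕ) : Prop := ∀ c, Eqt k (ty B c) (ty B' c)

/-- block `i` is the last common block of the types `a`, `b`, and `a` is light there -/
def Vis (k : ℕ) (a b : ℕ → ℕ) (i : ℕ) : Prop :=
  i ≤ k ∧ Lf a i ∧ b i ≠ 0 ∧ ∀ j, i < j → j ≤ k → a j = 0 ∨ b j = 0

/-- exponents: `0`, `1` (light), `2` (not light) -/
def hm (a : ℕ → ℕ) (j : ℕ) : ℕ := if a j = 0 then 0 else if Lf a j then 1 else 2

/-- two letter blocks: `l` in block `i`, elsewhere powers of `0` and `1` -/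
def cb (a b : ℕ → ℕ) (i : ℕ) (l : List ℕ) : ℕ → List ℕ :=
  fun j => if j = i then l else List.replicate (hm a j) 0 ++ List.replicate (hm b j) 1

/-- the middle words of the left edge: `y²x ≈ y²xy²`, or `xy ≈ yx` if `y` is light -/
def mL (b : ℕ → ℕ) (i : ℕ) : List ℕ × List ℕ :=
  if Lf b i then ([0, 1], [1, 0]) else ([1, 1, 0], [1, 1, 0, 1, 1])

/-- the middle words of the right edge: `y²xy² ≈ xy²`, or `xy ≈ yx` if `y` is light -/
def mR (b : ℕ → ℕ) (i : ℕ) : List ℕ × List ℕ :=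
  if Lf b i then ([0, 1], [1, 0]) else ([1, 1, 0, 1, 1], [0, 1, 1])

/-- the left edge -/
def eL (k : ℕ) (a b : ℕ → ℕ) (i : ℕ) : List ℕ × List ℕ :=
  (asm k (cb a b i (mL b i).1), asm k (cb a b i (mL b i).2))

/-- the right edge -/
def eR (k : ℕ) (a b : ℕ → ℕ) (i : ℕ) : List ℕ × List ℕ :=
  (asm k (cb a b i (mR b i).1), asm k (cb a b i (mR b i).2))

/-- the left edge is in `θ` -/
def XL (θ : FIC) (k : ℕ) (a b : ℕ → ℕ) (i : ℕ) : Prop := RR θ (eL k a b i).1 (eL k a b i).2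

/-- the right edge is in `θ` -/
def XR (θ : FIC) (k : ℕ) (a b : ℕ → ℕ) (i : ℕ) : Prop := RR θ (eR k a b i).1 (eR k a b i).2

/-- admissible middle words -/
def Adm (b : ℕ → ℕ) (i : ℕ) (l : List ℕ) : Prop :=
  (∀ c ∈ l, c = 0 ∨ c = 1) ∧ l.count 0 = 1 ∧ (Lf b i → l.count 1 = 1) ∧
    (¬ Lf b i → 2 ≤ l.count 1)

/-- types of multiple letters -/
structure Rl (k : ℕ) (a b : ℕ → ℕ) (i : ℕ) : Prop where
  vis : Vis k a b i
  da : 2 ≤ deg k a
  db : 2 ≤ deg k b

/-- every letter which is not light in a block occurs there at least twice -/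
def Dbl (k : ℕ) (C : ℕ → List ℕ) : Prop :=
  ∀ j ≤ k, ∀ c ∈ C j, Lf (ty C c) j ∨ 2 ≤ (C j).count c

/-- the letters `0`, `1` replaced by `x`, `y` -/
def sb (x y : ℕ) (l : List ℕ) : List ℕ := l.map (fun c => if c = 0 then x else y)

/-- all letters which are not light are doubled -/
def dbl2 (B : ℕ → List ℕ) : ℕ → List ℕ :=
  fun j => (B j).flatMap (fun c => if Lf (ty B c) j then [c] else [c, c])

/-- `x²t ≈ x²tx` -/
def EE (θ : FIC) : Prop := RR θ [0, 0, 2] [0, 0, 2, 0]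

/-- `xtx ≈ x²tx` -/
def TT (θ : FIC) : Prop := RR θ [0, 2, 0] [0, 0, 2, 0]

/-- `x²tsx² ≈ x²tx²sx²` -/
def FF (θ : FIC) : Prop := RR θ [0, 0, 2, 3, 0, 0] [0, 0, 2, 0, 0, 3, 0, 0]

/-- the same first and second occurrences (by blocks) and the same last block -/
def Dt (k : ℕ) (a a' : ℕ → ℕ) : Prop :=
  ∀ i ≤ k, min (deg i a) 2 = min (deg i a') 2 ∧
    ((∀ j, i < j → j ≤ k → a j = 0) ↔ (∀ j, i < j → j ≤ k → a' j = 0))

/-- the same empty blocks -/
def Sp (k : ℕ) (a a' : ℕ → ℕ) : Prop := ∀ j ≤ k, a j = 0 ↔ a' j = 0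

end Pool.Agent.MWG
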